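import Pool.Agent.AE15.Super

/-!
# Ordered partitions of a tournament into blocks with a gap

`β : V → ℕ` is the index of the block of a vertex. Arcs from a block to a block with smaller index are rare, and large
blocks cannot be split: every set which is neither small nor almost the whole block sends many arcs to its complement.
The second threshold is much larger than the first one.
-/

namespace LTT

open Finset AE15
open scoped Classical

variable {V : Type*} {R : V → V → Prop}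

/-- the number of arcs from `A` to `B` -/
noncomputable def arcs (R : V → V → Prop) (A B : Finset V) : ℝ := ∑ a ∈ A, ((nO R B a).card : ℝ)

/-- the block with index `i` -/
noncomputable def blkI (X : Finset V) (β : V → ℕ) (i : ℕ) : Finset V := X.filter (fun u => β u = i)

/-- the vertices in the blocks with smaller index -/
noncomputable def uppI (X : Finset V) (β : V → ℕ) (i : ℕ) : Finset V := X.filter (fun u => β u < i)

/-- the vertices in the blocks with larger index -/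
noncomputable def dwnI (X : Finset V) (β : V → ℕ) (i : ℕ) : Finset V := X.filter (fun u => i < β u)

/-- `v` is generic: it is dominated by all but `t` of the vertices above, and dominates all but `t` of the vertices
below -/
def Gen (R : V → V → Prop) (X : Finset V) (β : V → ℕ) (t : ℝ) (v : V) : Prop :=
  ((nO R (uppI X β (β v)) v).card : ℝ) ≤ t ∧ ((nI R (dwnI X β (β v)) v).card : ℝ) ≤ t

theorem mem_blkI {X : Finset V} {β : V → ℕ} {i : ℕ} {u : V} : u ∈ blkI X β i ↔ u ∈ X ∧ β u = i := by simp [blkI]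

theorem mem_uppI {X : Finset V} {β : V → ℕ} {i : ℕ} {u : V} : u ∈ uppI X β i ↔ u ∈ X ∧ β u < i := by simp [uppI]

theorem mem_dwnI {X : Finset V} {β : V → ℕ} {i : ℕ} {u : V} : u ∈ dwnI X β i ↔ u ∈ X ∧ i < β u := by simp [dwnI]

theorem arcs_nonneg (A B : Finset V) : 0 ≤ arcs R A B := sum_nonneg (fun _ _ => Nat.cast_nonneg _)

theorem arcs_mono {A A' B B' : Finset V} (hA : A ⊆ A') (hB : B ⊆ B') : arcs R A B ≤ arcs R A' B' := by
  refine (sum_le_sum (fun a _ => ?_)).trans (sum_le_sum_of_subset_of_nonneg hA (fun _ _ _ => Nat.cast_nonneg _))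
  exact_mod_cast card_le_card (nO_mono hB)

theorem arcs_union_left {A A' B : Finset V} (h : Disjoint A A') :
    arcs R (A ∪ A') B = arcs R A B + arcs R A' B := sum_union h

theorem arcs_union_right {A B B' : Finset V} (h : Disjoint B B') :
    arcs R A (B ∪ B') = arcs R A B + arcs R A B' := by
  unfold arcs
  rw [← sum_add_distrib]
  refine sum_congr rfl (fun a _ => ?_)
  have : nO R (B ∪ B') a = nO R B a ∪ nO R B' a := by simp [nO, filter_union]
  have h' : Disjoint (nO R B a) (nO R B' a) := disjoint_filter_filter h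
  rw [this, card_union_of_disjoint h']
  push_cast
  rfl

theorem arcs_eq_sum_nI (A B : Finset V) : arcs R A B = ∑ b ∈ B, ((nI R A b).card : ℝ) := by
  unfold arcs
  exact_mod_cast sum_nO_eq_sum_nI A B

/-- ordered partition into `m` blocks of size at least `b` with at most `s` arcs from a block to an earlier one -/
structure Pt (R : V → V → Prop) (X : Finset V) (β : V → ℕ) (m : ℕ) (b s : ℝ) : Prop where
  lt : ∀ v ∈ X, β v < m
  big : ∀ i < m, b ≤ (blkI X β i).card
  back : ∀ i j, i < j → arcs R (blkI X β j) (blkI X β i) ≤ s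

/-- splitting a block -/
theorem Pt.split {X : Finset V} {β : V → ℕ} {m : ℕ} {b s s' : ℝ} (h : Pt R X β m b s) (hs : s ≤ s') {i : ℕ}
    (hi : i < m) {A : Finset V} (hA : A ⊆ blkI X β i) (h1 : b ≤ A.card) (h2 : b ≤ (blkI X β i \ A).card)
    (h3 : arcs R A (blkI X β i \ A) ≤ s') : ∃ β', Pt R X β' (m + 1) b s' := by
  obtain ⟨β', hβ'⟩ : ∃ β' : V → ℕ, β' = fun v => if β v < i then β v else
      if β v = i then (if v ∈ A then i + 1 else i) else β v + 1 := ⟨_, rfl⟩
  have hAi : ∀ v ∈ A, v ∈ X ∧ β v = i := fun v hv => mem_blkI.1 (hA hv)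
  have b1 : ∀ j < i, blkI X β' j = blkI X β j := by
    intro j hj
    ext v
    rw [mem_blkI, mem_blkI, hβ']
    simp only
    split_ifs <;> constructor <;> rintro ⟨h4, h5⟩ <;> refine ⟨h4, ?_⟩ <;> omega
  have b2 : blkI X β' i = blkI X β i \ A := by
    ext v
    rw [mem_blkI, mem_sdiff, mem_blkI, hβ']
    simp only
    split_ifs with h4 h5 h6
    · constructor
      · rintro ⟨_, h7⟩; omega
      · rintro ⟨⟨_, h7⟩, _⟩; omega
    · constructor
      · rintro ⟨_, h7⟩; omega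
      · rintro ⟨_, h7⟩; exact absurd h6 h7
    · simp [h5, h6]
    · constructor
      · rintro ⟨_, h7⟩; omega
      · rintro ⟨⟨_, h7⟩, _⟩; omega
  have b3 : blkI X β' (i + 1) = A := by
    ext v
    rw [mem_blkI, hβ']
    simp only
    split_ifs with h4 h5 h6
    · constructor
      · rintro ⟨_, h7⟩; omega
      · intro h7; have := (hAi v h7).2; omega
    · simp [h6, (hAi v h6).1]
    · constructor
      · rintro ⟨_, h7⟩; omega
      · intro h7; exact absurd h7 h6
    · constructor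
      · rintro ⟨_, h7⟩; omega
      · intro h7; have := (hAi v h7).2; omega
  have b4 : ∀ j, i + 1 ≤ j → blkI X β' (j + 1) = blkI X β j := by
    intro j hj
    ext v
    rw [mem_blkI, mem_blkI, hβ']
    simp only
    split_ifs <;> constructor <;> rintro ⟨h4, h5⟩ <;> refine ⟨h4, ?_⟩ <;> omega
  -- every new block lies in an old one
  have b5 : ∀ j, blkI X β' j ⊆ blkI X β (if j ≤ i then j else j - 1) := by
    intro j
    rcases lt_trichotomy j i with h4 | h4 | h4
    · rw [b1 j h4, if_pos h4.le]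
    · rw [h4, b2, if_pos le_rfl]
      exact sdiff_subset
    · rw [if_neg (by omega)]
      obtain ⟨j', rfl⟩ : ∃ j', j = j' + 1 := ⟨j - 1, by omega⟩
      rcases Nat.eq_or_lt_of_le (show i ≤ j' by omega) with h5 | h5
      · rw [← h5, b3]
        simpa using hA
      · rw [b4 j' h5]
        simp
  refine ⟨β', ?_, ?_, ?_⟩
  · intro v hv
    have := h.lt v hv
    rw [hβ']
    simp only
    split_ifs <;> omega
  · intro j hj
    rcases lt_trichotomy j i with h4 | h4 | h4
    · rw [b1 j h4]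
      exact h.big j (by omega)
    · rw [h4, b2]
      exact h2
    · obtain ⟨j', rfl⟩ : ∃ j', j = j' + 1 := ⟨j - 1, by omega⟩
      rcases Nat.eq_or_lt_of_le (show i ≤ j' by omega) with h5 | h5
      · rw [← h5, b3]
        exact h1
      · rw [b4 j' h5]
        exact h.big j' (by omega)
  · intro j₁ j₂ hj
    by_cases h4 : j₁ = i ∧ j₂ = i + 1
    · rw [h4.1, h4.2, b2, b3]
      exact h3
    · refine (arcs_mono (b5 j₂) (b5 j₁)).trans ((h.back _ _ ?_).trans hs)
      split_ifs <;> omega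

/-- the partition has not too many blocks -/
theorem Pt.count {X : Finset V} {β : V → ℕ} {m : ℕ} {b s : ℝ} (h : Pt R X β m b s) : m * b ≤ X.card := by
  have h1 : X.card = ∑ i ∈ range m, (X.filter (fun u => β u = i)).card :=
    card_eq_sum_card_fiberwise (fun v hv => by simpa using h.lt v hv)
  have h2 : ∑ i ∈ range m, b ≤ ∑ i ∈ range m, ((X.filter (fun u => β u = i)).card : ℝ) :=
    sum_le_sum (fun i hi => h.big i (mem_range.1 hi))
  rw [sum_const, card_range, nsmul_eq_mul] at h2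
  rw [h1]
  push_cast
  exact h2

/-- large blocks are unsplittable -/
def Uns (R : V → V → Prop) (X : Finset V) (β : V → ℕ) (η₀ η₁ k : ℝ) (i : ℕ) : Prop :=
  η₀ * X.card ≤ (blkI X β i).card → ∀ A ⊆ blkI X β i, η₁ * (blkI X β i).card ≤ A.card →
    (A.card : ℝ) ≤ (1 - η₁) * (blkI X β i).card → k * X.card ^ 2 ≤ arcs R A (blkI X β i \ A)

theorem part_aux {η₀ η₁ : ℝ} (hη₁ : 0 < η₁) {X : Finset V} {m₀ : ℕ} (g : ℕ → ℝ)
    (hg : ∀ t, g (t + 1) ≤ g t)
    (hm₀ : (X.card : ℝ) < (m₀ + 1) * (η₀ * η₁ * X.card)) : ∀ (t m : ℕ) (β : V → ℕ), m + t = m₀ + 1 →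
      Pt R X β m (η₀ * η₁ * X.card) (g t * X.card ^ 2) → ∃ (j m' : ℕ) (β' : V → ℕ), j ≤ m₀ + 1 ∧ m' ≤ m₀ + 1 ∧
        Pt R X β' m' (η₀ * η₁ * X.card) (g (j + 1) * X.card ^ 2) ∧ ∀ i < m', Uns R X β' η₀ η₁ (g j) i := by
  intro t
  induction t with
  | zero =>
    intro m β hm h
    exfalso
    have h1 := h.count
    have h2 : (m : ℝ) = m₀ + 1 := by
      have : m = m₀ + 1 := by omega
      rw [this]
      push_cast
      rfl
    rw [h2] at h1
    linarith
  | succ t ih =>
    intro m β hm h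
    by_cases hc : ∀ i < m, Uns R X β η₀ η₁ (g t) i
    · exact ⟨t, m, β, by omega, by omega, h, hc⟩
    · push Not at hc
      obtain ⟨i, hi, hc⟩ := hc
      unfold Uns at hc
      push Not at hc
      obtain ⟨h1, A, hA, h2, h3, h4⟩ := hc
      have h5 : η₀ * η₁ * X.card ≤ η₁ * (blkI X β i).card := by
        have := mul_le_mul_of_nonneg_left h1 hη₁.le
        linarith
      have h6 : ((blkI X β i \ A).card : ℝ) = (blkI X β i).card - A.card := by
        have := card_sdiff_add_card_eq_card hA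
        rw [← this]
        push_cast
        ring
      obtain ⟨β', h7⟩ := h.split (s' := g t * X.card ^ 2) (mul_le_mul_of_nonneg_right (hg t) (by positivity)) hi hA
        (by linarith) (by rw [h6]; linarith) h4.le
      exact ih (m + 1) β' (by omega) h7

/-- counting the arcs from a vertex to earlier blocks -/
theorem Pt.sum_upp {X : Finset V} {β : V → ℕ} {m : ℕ} {b s : ℝ} (h : Pt R X β m b s) (hs : 0 ≤ s) :
    ∑ v ∈ X, ((nO R (uppI X β (β v)) v).card : ℝ) ≤ m ^ 2 * s := by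
  have h1 : ∑ v ∈ X, ((nO R (uppI X β (β v)) v).card : ℝ) =
      ∑ i ∈ range m, ∑ v ∈ X.filter (fun u => β u = i), ((nO R (uppI X β (β v)) v).card : ℝ) :=
    (sum_fiberwise_of_maps_to (fun v hv => by simpa using h.lt v hv) _).symm
  rw [h1]
  have h2 : ∀ i ∈ range m, ∑ v ∈ X.filter (fun u => β u = i), ((nO R (uppI X β (β v)) v).card : ℝ) ≤ m * s := by
    intro i hi
    have h3 : ∀ v ∈ X.filter (fun u => β u = i), ((nO R (uppI X β (β v)) v).card : ℝ) ≤
        ∑ j ∈ range i, ((nO R (blkI X β j) v).card : ℝ) := by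
      intro v hv
      rw [(mem_filter.1 hv).2]
      have h4 : nO R (uppI X β i) v ⊆ (range i).biUnion (fun j => nO R (blkI X β j) v) := by
        intro u hu
        rw [mem_nO, mem_uppI] at hu
        rw [mem_biUnion]
        exact ⟨β u, mem_range.2 hu.1.2, mem_nO.2 ⟨mem_blkI.2 ⟨hu.1.1, rfl⟩, hu.2⟩⟩
      exact_mod_cast (card_le_card h4).trans card_biUnion_le
    refine (sum_le_sum h3).trans ?_
    rw [sum_comm]
    have h5 : ∀ j ∈ range i, ∑ v ∈ X.filter (fun u => β u = i), ((nO R (blkI X β j) v).card : ℝ) ≤ s := fun j hj =>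
      h.back j i (mem_range.1 hj)
    refine (sum_le_sum h5).trans ?_
    rw [sum_const, card_range, nsmul_eq_mul]
    refine mul_le_mul_of_nonneg_right ?_ hs
    exact_mod_cast (mem_range.1 hi).le
  refine (sum_le_sum h2).trans ?_
  rw [sum_const, card_range, nsmul_eq_mul]
  nlinarith

theorem sum_dwn (X : Finset V) (β : V → ℕ) :
    ∑ v ∈ X, ((nI R (dwnI X β (β v)) v).card : ℝ) = ∑ v ∈ X, ((nO R (uppI X β (β v)) v).card : ℝ) := by
  have h : ∑ v ∈ X, (nI R (dwnI X β (β v)) v).card = ∑ v ∈ X, (nO R (uppI X β (β v)) v).card := by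
    simp only [nI, nO, dwnI, uppI, filter_filter, card_filter]
    rw [sum_comm]
  exact_mod_cast h

theorem Pt.nongen {X : Finset V} {β : V → ℕ} {m : ℕ} {b s : ℝ} (h : Pt R X β m b s) (hs : 0 ≤ s) {t : ℝ} (ht : 0 < t) :
    ((X.filter (fun v => ¬ Gen R X β t v)).card : ℝ) ≤ 2 * (m ^ 2 * s) / t := by
  have h1 := h.sum_upp hs
  have h2 := sum_dwn (R := R) X β
  have key : ∀ f : V → ℕ, ∑ v ∈ X, (f v : ℝ) ≤ m ^ 2 * s →
      ((X.filter (fun v => t < (f v : ℝ))).card : ℝ) * t ≤ m ^ 2 * s := by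
    intro f hf
    have h3 : ((X.filter (fun v => t < (f v : ℝ))).card : ℝ) * t ≤ ∑ v ∈ X.filter (fun v => t < (f v : ℝ)), (f v : ℝ) := by
      rw [← nsmul_eq_mul]
      exact card_nsmul_le_sum _ _ _ (fun v hv => (mem_filter.1 hv).2.le)
    exact (h3.trans (sum_le_sum_of_subset_of_nonneg (filter_subset _ _) (fun _ _ _ => Nat.cast_nonneg _))).trans hf
  have h3 := key (fun v => (nO R (uppI X β (β v)) v).card) h1
  have h4 := key (fun v => (nI R (dwnI X β (β v)) v).card) (h2.trans_le h1)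
  have h5 : X.filter (fun v => ¬ Gen R X β t v) ⊆
      X.filter (fun v => t < ((nO R (uppI X β (β v)) v).card : ℝ)) ∪
        X.filter (fun v => t < ((nI R (dwnI X β (β v)) v).card : ℝ)) := by
    intro v hv
    rw [mem_filter] at hv
    rw [mem_union, mem_filter, mem_filter]
    by_contra hc
    push Not at hc
    exact hv.2 ⟨hc.1 hv.1, hc.2 hv.1⟩
  have h6 : ((X.filter (fun v => ¬ Gen R X β t v)).card : ℝ) ≤
      (X.filter (fun v => t < ((nO R (uppI X β (β v)) v).card : ℝ))).card +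
        (X.filter (fun v => t < ((nI R (dwnI X β (β v)) v).card : ℝ))).card := by
    exact_mod_cast (card_le_card h5).trans (card_union_le _ _)
  rw [le_div_iff₀ ht]
  have h7 := mul_le_mul_of_nonneg_right h6 ht.le
  rw [add_mul] at h7
  linarith

/-- the thresholds -/
noncomputable def thr (G : ℝ → ℝ) (k₁ : ℝ) : ℕ → ℝ
  | 0 => k₁
  | t + 1 => min (thr G k₁ t) (G (thr G k₁ t))

theorem thr_pos {G : ℝ → ℝ} (hG : ∀ k, 0 < k → 0 < G k) {k₁ : ℝ} (hk₁ : 0 < k₁) (t : ℕ) : 0 < thr G k₁ t := by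
  induction t with
  | zero => exact hk₁
  | succ t ih => exact lt_min ih (hG _ ih)

theorem thr_anti (G : ℝ → ℝ) (k₁ : ℝ) {s t : ℕ} (h : s ≤ t) : thr G k₁ t ≤ thr G k₁ s := by
  induction t, h using Nat.le_induction with
  | base => exact le_rfl
  | succ t _ ih => exact (min_le_left _ _).trans ih

/-- **Partition with a gap** -/
theorem partition {η₀ η₁ : ℝ} (hη₀ : 0 < η₀) (hη₀' : η₀ ≤ 1) (hη₁ : 0 < η₁) (hη₁' : η₁ ≤ 1) (ν : ℝ → ℝ)
    (hν : ∀ k, 0 < k → 0 < ν k) {k₁ : ℝ} (hk₁ : 0 < k₁) : ∃ k₀ : ℝ, 0 < k₀ ∧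
      ∀ {V : Type*} {R : V → V → Prop} (X : Finset V), ∃ (k : ℝ) (β : V → ℕ), k₀ ≤ k ∧ k ≤ k₁ ∧
        (∀ v ∈ X, η₀ * η₁ * X.card ≤ (blkI X β (β v)).card) ∧ (∀ v ∈ X, Uns R X β η₀ η₁ k (β v)) ∧
        ((X.filter (fun v => ¬ Gen R X β (ν k * X.card) v)).card : ℝ) ≤ ν k * X.card := by
  have hb : 0 < η₀ * η₁ := by positivity
  obtain ⟨m₀, hm₀⟩ : ∃ m₀ : ℕ, m₀ = ⌈1 / (η₀ * η₁)⌉₊ := ⟨_, rfl⟩
  obtain ⟨G, hG⟩ : ∃ G : ℝ → ℝ, G = fun k => ν k ^ 2 / (2 * ((m₀ : ℝ) + 1) ^ 2) := ⟨_, rfl⟩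
  have hGpos : ∀ k, 0 < k → 0 < G k := by
    intro k hk
    have := hν k hk
    rw [hG]
    positivity
  refine ⟨thr G k₁ (m₀ + 1), thr_pos hGpos hk₁ _, ?_⟩
  intro V R X
  rcases X.eq_empty_or_nonempty with rfl | hX
  · exact ⟨k₁, fun _ => 0, thr_anti G k₁ (Nat.zero_le _), le_rfl, by simp, by simp, by simp⟩
  have hXpos : (0 : ℝ) < X.card := by exact_mod_cast hX.card_pos
  have hcount : (X.card : ℝ) < (m₀ + 1) * (η₀ * η₁ * X.card) := by
    have h1 : 1 / (η₀ * η₁) ≤ (m₀ : ℝ) := by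
      rw [hm₀]
      exact Nat.le_ceil _
    rw [div_le_iff₀ hb] at h1
    have h2 : (1 : ℝ) < (m₀ + 1) * (η₀ * η₁) := by linarith
    calc (X.card : ℝ) = 1 * X.card := (one_mul _).symm
      _ < (m₀ + 1) * (η₀ * η₁) * X.card := mul_lt_mul_of_pos_right h2 hXpos
      _ = _ := by ring
  have hb1 : η₀ * η₁ ≤ 1 := mul_le_one₀ hη₀' hη₁.le hη₁'
  -- the trivial partition
  have hP : Pt R X (fun _ => 0) 1 (η₀ * η₁ * X.card) (thr G k₁ m₀ * X.card ^ 2) := by
    refine ⟨fun v _ => Nat.zero_lt_one, ?_, ?_⟩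
    · intro i hi
      obtain rfl : i = 0 := by omega
      have : blkI X (fun _ => 0) 0 = X := by simp [blkI]
      rw [this]
      have := mul_le_mul_of_nonneg_right hb1 hXpos.le
      linarith
    · intro i j hij
      have : blkI X (fun _ => 0) j = ∅ := by
        simp only [blkI]
        exact filter_false_of_mem (fun _ _ => by omega)
      rw [this]
      simp only [arcs, sum_empty]
      have := thr_pos hGpos hk₁ m₀
      positivity
  obtain ⟨j, m, β, hj, hm, h1, h2⟩ := part_aux (R := R) (η₀ := η₀) hη₁ (thr G k₁) (fun t => thr_anti G k₁ (Nat.le_succ t))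
    hcount m₀ 1 (fun _ => 0) (by omega) hP
  have hkj := thr_pos hGpos hk₁ j
  have hνj := hν _ hkj
  refine ⟨thr G k₁ j, β, thr_anti G k₁ hj, thr_anti G k₁ (Nat.zero_le j), fun v hv => h1.big _ (h1.lt v hv),
    fun v hv => h2 _ (h1.lt v hv), ?_⟩
  have hs : 0 ≤ thr G k₁ (j + 1) * (X.card : ℝ) ^ 2 := by
    have := thr_pos hGpos hk₁ (j + 1)
    positivity
  refine (h1.nongen hs (mul_pos hνj hXpos)).trans ?_
  rw [div_le_iff₀ (mul_pos hνj hXpos)]
  have h3 : thr G k₁ (j + 1) ≤ G (thr G k₁ j) := min_le_right _ _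
  have h4 : (m : ℝ) ≤ m₀ + 1 := by exact_mod_cast hm
  have h5 : (m : ℝ) ^ 2 ≤ ((m₀ : ℝ) + 1) ^ 2 := by
    have : (0 : ℝ) ≤ m := Nat.cast_nonneg _
    nlinarith
  have h6 : 2 * ((m₀ : ℝ) + 1) ^ 2 * G (thr G k₁ j) = ν (thr G k₁ j) ^ 2 := by
    rw [hG]
    field_simp
  have hpos := thr_pos hGpos hk₁ (j + 1)
  have h7 : (m : ℝ) ^ 2 * thr G k₁ (j + 1) ≤ ((m₀ : ℝ) + 1) ^ 2 * G (thr G k₁ j) :=
    mul_le_mul h5 h3 hpos.le (by positivity)
  have h8 : 2 * ((m : ℝ) ^ 2 * thr G k₁ (j + 1)) ≤ ν (thr G k₁ j) ^ 2 := by linarith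
  calc 2 * ((m : ℝ) ^ 2 * (thr G k₁ (j + 1) * (X.card : ℝ) ^ 2)) =
      2 * ((m : ℝ) ^ 2 * thr G k₁ (j + 1)) * (X.card : ℝ) ^ 2 := by ring
    _ ≤ ν (thr G k₁ j) ^ 2 * (X.card : ℝ) ^ 2 := mul_le_mul_of_nonneg_right h8 (by positivity)
    _ = _ := by ring

end LTT
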