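import Pool.Agent.AED.Trees

/-!
# Labelled trees: closed sets of vertices of every possible size
-/

namespace LTT

open Finset AE15 AED
open scoped Classical

/-- forests (as `Fd`) with a Boolean label `e` at every vertex -/
inductive Fl : Type
  | nil : Fl
  | node (d e : Bool) (c s : Fl) : Fl

/-- forget the labels -/
def Fl.un : Fl → Fd
  | .nil => .nil
  | .node d _ c s => .node d c.un s.un

/-- number of vertices with label `true` -/
def Fl.cnt : Fl → ℕ
  | .nil => 0
  | .node _ e c s => (if e then 1 else 0) + c.cnt + s.cnt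

/-- the component of the common vertex (label `false`): subtrees whose root has label `true` are removed -/
def Fl.top : Fl → Fd
  | .nil => .nil
  | .node d e c s => if e then s.top else .node d c.top s.top

/-- the forest hangs on a vertex with label `p`. The set of the vertices with label `true` is closed: `σ = true`: under
in-neighbours (an upper set), `σ = false`: under out-neighbours (a lower set) -/
def Fl.Ok (σ : Bool) : Bool → Fl → Prop
  | _, .nil => True
  | p, .node d e c s => (if d = σ then (e = true → p = true) else (p = true → e = true)) ∧ Fl.Ok σ e c ∧ Fl.Ok σ p s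

/-- number of the vertices which are reached from the common vertex by directed paths all of whose arcs have direction
`σ` (`σ = true`: proper descendants, `σ = false`: proper ancestors) -/
def rch (σ : Bool) : Fd → ℕ
  | .nil => 0
  | .node d c s => (if d = σ then rch σ c + 1 else 0) + rch σ s

theorem rch_add_le (c : Fd) (σ : Bool) : rch σ c + rch (!σ) c ≤ c.size := by
  induction c with
  | nil => simp [rch, Fd.size]
  | node d c s ihc ihs =>
    simp only [rch, Fd.size]
    rcases Bool.eq_false_or_eq_true d with h | h <;> rcases Bool.eq_false_or_eq_true σ with h' | h' <;> subst h <;> subst h' <;> simp at ihc ihs ⊢ <;> omega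

theorem exists_label (σ : Bool) (c : Fd) :
    (∀ n : ℕ, n + rch σ c ≤ c.size → ∃ F : Fl, F.un = c ∧ F.Ok σ false ∧ F.cnt = n ∧
      rch (!σ) F.top = rch (!σ) c - n) ∧
    (∀ n : ℕ, rch (!σ) c ≤ n → n ≤ c.size → ∃ F : Fl, F.un = c ∧ F.Ok σ true ∧ F.cnt = n) := by
  induction c with
  | nil =>
    constructor
    · intro n hn
      refine ⟨.nil, rfl, trivial, ?_, ?_⟩
      · simp only [rch, Fd.size, Fl.cnt] at hn ⊢
        omega
      · simp [Fl.top, rch]
    · intro n _ hn
      refine ⟨.nil, rfl, trivial, ?_⟩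
      simp only [Fd.size, Fl.cnt] at hn ⊢
      omega
  | node d c s ihc ihs =>
    have h1 := rch_add_le c σ
    have h2 := rch_add_le s σ
    by_cases hd : d = σ
    · have hd' : ¬ (d = !σ) := by rw [hd]; cases σ <;> simp
      constructor
      · intro n hn
        simp only [rch, Fd.size, if_pos hd, if_neg hd'] at hn ⊢
        obtain ⟨a, b, hab, ha, hb, hc⟩ : ∃ a b, a + b = n ∧ a + rch σ c ≤ c.size ∧ b + rch σ s ≤ s.size ∧
            rch (!σ) s - b = rch (!σ) s - n := by
          refine ⟨min (c.size - rch σ c) (n - rch (!σ) s), n - min (c.size - rch σ c) (n - rch (!σ) s), ?_, ?_, ?_, ?_⟩ <;>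
            omega
        obtain ⟨F₁, e1, e2, e3, -⟩ := ihc.1 a ha
        obtain ⟨F₂, f1, f2, f3, f4⟩ := ihs.1 b hb
        refine ⟨.node d false F₁ F₂, ?_, ⟨?_, e2, f2⟩, ?_, ?_⟩
        · simp [Fl.un, e1, f1]
        · simp [hd]
        · simp [Fl.cnt, e3, f3, hab]
        · simp only [Fl.top, Bool.false_eq_true, if_false, rch, if_neg hd']
          omega
      · intro n hn hn'
        simp only [rch, Fd.size, if_neg hd'] at hn hn' ⊢
        obtain ⟨a, b, hab, ha, hb, hc⟩ : ∃ a b, a + b = n ∧ a ≤ c.size + 1 ∧ rch (!σ) s ≤ b ∧ b ≤ s.size := by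
          refine ⟨min (c.size + 1) (n - rch (!σ) s), n - min (c.size + 1) (n - rch (!σ) s), ?_, ?_, ?_, ?_⟩ <;>
            omega
        obtain ⟨F₂, f1, f2, f3⟩ := ihs.2 b hb hc
        by_cases h3 : a + rch σ c ≤ c.size
        · obtain ⟨F₁, e1, e2, e3, -⟩ := ihc.1 a h3
          refine ⟨.node d false F₁ F₂, ?_, ⟨?_, e2, f2⟩, ?_⟩
          · simp [Fl.un, e1, f1]
          · simp [hd]
          · simp [Fl.cnt, e3, f3, hab]
        · obtain ⟨F₁, e1, e2, e3⟩ := ihc.2 (a - 1) (by omega) (by omega)
          refine ⟨.node d true F₁ F₂, ?_, ⟨?_, e2, f2⟩, ?_⟩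
          · simp [Fl.un, e1, f1]
          · simp [hd]
          · simp only [Fl.cnt, if_true, e3, f3]
            omega
    · have hd' : d = !σ := by cases σ <;> cases d <;> simp_all
      constructor
      · intro n hn
        simp only [rch, Fd.size, if_neg hd, if_pos hd'] at hn ⊢
        obtain ⟨a, b, hab, ha, hb, hc⟩ : ∃ a b, a + b = n ∧ a ≤ c.size + 1 ∧ b + rch σ s ≤ s.size ∧
            ((a ≤ rch (!σ) c ∧ b = 0) ∨
              (rch (!σ) c + 1 ≤ a ∧ rch (!σ) s - b = rch (!σ) c + 1 + rch (!σ) s - n)) := by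
          by_cases h3 : n ≤ rch (!σ) c + 1 + rch (!σ) s
          · refine ⟨min n (rch (!σ) c + 1), n - min n (rch (!σ) c + 1), ?_, ?_, ?_, ?_⟩ <;> omega
          · refine ⟨min (c.size + 1) (n - rch (!σ) s), n - min (c.size + 1) (n - rch (!σ) s), ?_, ?_, ?_, ?_⟩ <;> omega
        obtain ⟨F₂, f1, f2, f3, f4⟩ := ihs.1 b hb
        rcases hc with ⟨hc, hc'⟩ | ⟨hc, hc'⟩
        · obtain ⟨F₁, e1, e2, e3, e4⟩ := ihc.1 a (by omega)
          refine ⟨.node d false F₁ F₂, ?_, ⟨?_, e2, f2⟩, ?_, ?_⟩
          · simp [Fl.un, e1, f1]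
          · simp [hd]
          · simp [Fl.cnt, e3, f3, hab]
          · simp only [Fl.top, Bool.false_eq_true, if_false, rch, if_pos hd']
            omega
        · obtain ⟨F₁, e1, e2, e3⟩ := ihc.2 (a - 1) (by omega) (by omega)
          refine ⟨.node d true F₁ F₂, ?_, ⟨?_, e2, f2⟩, ?_, ?_⟩
          · simp [Fl.un, e1, f1]
          · simp [hd]
          · simp only [Fl.cnt, if_true, e3, f3]
            omega
          · simp only [Fl.top, if_true]
            omega
      · intro n hn hn'
        simp only [rch, Fd.size, if_pos hd'] at hn hn' ⊢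
        obtain ⟨a, b, hab, ha, ha', hb, hc⟩ : ∃ a b, a + b = n ∧ rch (!σ) c + 1 ≤ a ∧ a ≤ c.size + 1 ∧
            rch (!σ) s ≤ b ∧ b ≤ s.size := by
          refine ⟨min (c.size + 1) (n - rch (!σ) s), n - min (c.size + 1) (n - rch (!σ) s), ?_, ?_, ?_, ?_, ?_⟩ <;>
            omega
        obtain ⟨F₂, f1, f2, f3⟩ := ihs.2 b hb hc
        obtain ⟨F₁, e1, e2, e3⟩ := ihc.2 (a - 1) (by omega) (by omega)
        refine ⟨.node d true F₁ F₂, ?_, ⟨?_, e2, f2⟩, ?_⟩
        · simp [Fl.un, e1, f1]
        · simp [hd]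
        · simp only [Fl.cnt, if_true, e3, f3]
          omega

/-- the component of the common vertex and the vertices with label `true` -/
theorem Fl.top_size_add_cnt_le (F : Fl) : F.top.size + F.cnt ≤ F.un.size := by
  induction F with
  | nil => simp [Fl.top, Fl.cnt, Fl.un, Fd.size]
  | node d e c s ihc ihs =>
    cases e
    · simp only [Fl.top, Fl.cnt, Fl.un, Fd.size, Bool.false_eq_true, if_false]
      omega
    · simp only [Fl.top, Fl.cnt, Fl.un, Fd.size, if_true]
      have h : c.cnt ≤ c.un.size := le_trans (Nat.le_add_left _ _) ihc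
      omega

theorem Fl.top_len_le (F : Fl) : F.top.len ≤ F.un.len := by
  induction F with
  | nil => simp [Fl.top, Fl.un]
  | node d e c s ihc ihs =>
    cases e
    · simp only [Fl.top, Fl.un, Fd.len, Bool.false_eq_true, if_false]
      omega
    · simp only [Fl.top, Fl.un, Fd.len, if_true]
      omega

theorem Fl.top_deg {b : ℕ} (F : Fl) (h : F.un.Deg b) : F.top.Deg b := by
  induction F with
  | nil => simp [Fl.top, Fd.Deg]
  | node d e c s ihc ihs =>
    obtain ⟨h1, h2, h3⟩ := h
    cases e
    · simp only [Fl.top, Bool.false_eq_true, if_false]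
      exact ⟨(Fl.top_len_le c).trans h1, ihc h2, ihs h3⟩
    · simp only [Fl.top, if_true]
      exact ihs h3

/-- **Two cuts**: the tree with children forest `c` is cut into an upper set (`F₁`, at most `p` vertices), a lower set
(`F₂`, at most `q` vertices) and the rest (at most `m` vertices), which contains the root -/
theorem two_cuts (c : Fd) (p m q : ℕ) (hm : 1 ≤ m) (h : c.size + 1 ≤ p + m + q) (h₁ : rch false c + 1 ≤ p + m)
    (h₂ : rch true c + 1 ≤ m + q) : ∃ F₁ F₂ : Fl, F₁.un = c ∧ F₁.Ok true false ∧ F₁.cnt ≤ p ∧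
      c.size + 1 ≤ m + q + F₁.cnt ∧ F₂.un = F₁.top ∧ F₂.Ok false false ∧ F₂.cnt ≤ q ∧
      F₁.top.size + 1 ≤ m + F₂.cnt ∧ F₂.top.size + 1 ≤ m := by
  have e1 := rch_add_le c true
  simp only [Bool.not_true] at e1
  obtain ⟨F₁, a1, a2, a3, a4⟩ := (exists_label true c).1 (min p (c.size - rch true c)) (by omega)
  simp only [Bool.not_true] at a4
  have a5 := F₁.top_size_add_cnt_le
  rw [a1] at a5
  have e2 := rch_add_le F₁.top false
  simp only [Bool.not_false] at e2
  obtain ⟨F₂, b1, b2, b3, -⟩ := (exists_label false F₁.top).1 (min q (F₁.top.size - rch false F₁.top)) (by omega)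
  have b5 := F₂.top_size_add_cnt_le
  rw [b1] at b5
  refine ⟨F₁, F₂, a1, a2, by omega, by omega, b1, b2, by omega, by omega, by omega⟩

end LTT
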